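import Pool.Agent.Y817.BC.Stm

set_option autoImplicit false

namespace Pool.Agent.Y471.BC

open Pool.Agent.Y817.BC

lemma e_self (i : Fin 3) : e i i = 1 := by simp [e]

lemma e_ne {i j : Fin 3} (h : j ≠ i) : e i j = 0 := by simp [e, h]

lemma step_nat {s : ℝ} {w : G → Fin 3 → ℝ} (h : Slope s w) (x : G) (i j : Fin 3) (n : ℕ) :
    |w (x + (n : ℤ) • e i) j - w x j| ≤ s * n := by
  induction n with
  | zero => simp
  | succ n ih =>
    have h1 : x + ((n + 1 : ℕ) : ℤ) • e i = (x + (n : ℤ) • e i) + e i := by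
      push_cast
      rw [add_smul, one_smul, add_assoc]
    rw [h1]
    have h2 := h (x + (n : ℤ) • e i) i j
    push_cast
    calc |w (x + (n : ℤ) • e i + e i) j - w x j|
        = |(w (x + (n : ℤ) • e i + e i) j - w (x + (n : ℤ) • e i) j) +
          (w (x + (n : ℤ) • e i) j - w x j)| := by ring_nf
      _ ≤ s + s * n := (abs_add_le _ _).trans (add_le_add h2 ih)
      _ = s * (n + 1) := by ring

lemma step_int {s : ℝ} {w : G → Fin 3 → ℝ} (h : Slope s w) (x : G) (i j : Fin 3) (m : ℤ) :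
    |w (x + m • e i) j - w x j| ≤ s * |(m : ℝ)| := by
  obtain ⟨n, rfl | rfl⟩ := m.eq_nat_or_neg
  · have := step_nat h x i j n
    simpa using this
  · have h1 := step_nat h (x + (-(n : ℤ)) • e i) i j n
    have h2 : x + (-(n : ℤ)) • e i + (n : ℤ) • e i = x := by
      rw [neg_smul]; abel
    rw [h2, abs_sub_comm] at h1
    simpa using h1

lemma lip {s : ℝ} {w : G → Fin 3 → ℝ} (h : Slope s w) (x y : G) (j : Fin 3) :
    |w y j - w x j| ≤ s * (|((y 0 - x 0 : ℤ) : ℝ)| + |((y 1 - x 1 : ℤ) : ℝ)| +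
      |((y 2 - x 2 : ℤ) : ℝ)|) := by
  have h0 := step_int h x 0 j (y 0 - x 0)
  have h1 := step_int h (x + (y 0 - x 0) • e 0) 1 j (y 1 - x 1)
  have h2 := step_int h (x + (y 0 - x 0) • e 0 + (y 1 - x 1) • e 1) 2 j (y 2 - x 2)
  have h3 : x + (y 0 - x 0) • e 0 + (y 1 - x 1) • e 1 + (y 2 - x 2) • e 2 = y := by
    ext k
    fin_cases k <;> simp [e]
  rw [h3] at h2
  calc |w y j - w x j| = |(w y j - w (x + (y 0 - x 0) • e 0 + (y 1 - x 1) • e 1) j) +
        (w (x + (y 0 - x 0) • e 0 + (y 1 - x 1) • e 1) j - w (x + (y 0 - x 0) • e 0) j) +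
        (w (x + (y 0 - x 0) • e 0) j - w x j)| := by ring_nf
    _ ≤ _ := abs_add_three _ _ _
    _ ≤ s * |((y 2 - x 2 : ℤ) : ℝ)| + s * |((y 1 - x 1 : ℤ) : ℝ)| +
        s * |((y 0 - x 0 : ℤ) : ℝ)| := add_le_add (add_le_add h2 h1) h0
    _ = _ := by ring

lemma natAbs_le_nn (v : G) (j : Fin 3) : (v j).natAbs ≤ nn v :=
  Finset.le_sup (f := fun i => (v i).natAbs) (Finset.mem_univ j)

lemma exists_nn (v : G) : ∃ j, nn v = (v j).natAbs := by
  obtain ⟨j, -, hj⟩ := Finset.exists_mem_eq_sup Finset.univ ⟨0, Finset.mem_univ _⟩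
    (fun i => (v i).natAbs)
  exact ⟨j, hj⟩

lemma abs_le_nn (x y : G) (j : Fin 3) : |((y j - x j : ℤ) : ℝ)| ≤ nn (y - x) := by
  have h := natAbs_le_nn (y - x) j
  have h1 : |((y j - x j : ℤ) : ℝ)| = (((y - x) j).natAbs : ℝ) := by
    rw [Nat.cast_natAbs, Pi.sub_apply]
    push_cast
    rfl
  rw [h1]
  exact_mod_cast h

lemma lip' {w : G → Fin 3 → ℝ} (h : Slope (1 / 16) w) (x y : G) (j : Fin 3) (N : ℝ)
    (hN : ∀ i, |((y i - x i : ℤ) : ℝ)| ≤ N) : |w y j - w x j| ≤ 3 / 16 * N := by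
  have h0 := lip h x y j
  have h1 := hN 0
  have h2 := hN 1
  have h3 := hN 2
  linarith

lemma floor_near {a b : ℝ} {δ : ℤ} (h : ⌊a⌋ = ⌊b⌋ + δ) (h0 : 0 ≤ δ) (h1 : δ ≤ 1) :
    |a - b| < 2 := by
  have h2 := Int.floor_le a
  have h3 := Int.lt_floor_add_one a
  have h4 := Int.floor_le b
  have h5 := Int.lt_floor_add_one b
  have h6 : ((⌊a⌋ : ℤ) : ℝ) = ⌊b⌋ + δ := by exact_mod_cast h
  have h7 : (0 : ℝ) ≤ δ := by exact_mod_cast h0
  have h8 : (δ : ℝ) ≤ 1 := by exact_mod_cast h1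
  rw [abs_lt]
  constructor <;> linarith

lemma near {w : G → Fin 3 → ℝ} (h : Slope (1 / 16) w) (x y : G) (i : Fin 3)
    (hxy : coord w y = coord w x ∨ coord w y = coord w x + e i) : nn (y - x) ≤ 10 := by
  obtain ⟨j, hj⟩ := exists_nn (y - x)
  have h1 : |((y j : ℝ) - w y j) / 4 - ((x j : ℝ) - w x j) / 4| < 2 := by
    rcases hxy with h2 | h2
    · refine floor_near (δ := 0) ?_ le_rfl zero_le_one
      have := congrFun h2 j
      simpa [coord] using this
    · have := congrFun h2 j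
      by_cases hji : j = i
      · subst hji
        refine floor_near (δ := 1) ?_ zero_le_one le_rfl
        rw [Pi.add_apply, e_self] at this
        exact this
      · refine floor_near (δ := 0) ?_ le_rfl zero_le_one
        rw [Pi.add_apply, e_ne hji] at this
        exact this
  have h2 := lip' h x y j (nn (y - x)) (abs_le_nn x y)
  have h3 : |((y j - x j : ℤ) : ℝ)| = (nn (y - x) : ℝ) := by
    rw [hj, Nat.cast_natAbs, Pi.sub_apply]
    push_cast
    rfl
  have h4 : |((y j - x j : ℤ) : ℝ)| < 8 + 3 / 16 * (nn (y - x) : ℝ) := by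
    have h5 : ((y j - x j : ℤ) : ℝ) = 4 * (((y j : ℝ) - w y j) / 4 - ((x j : ℝ) - w x j) / 4) +
        (w y j - w x j) := by push_cast; ring
    rw [h5]
    refine lt_of_le_of_lt (abs_add_le _ _) ?_
    rw [abs_mul, abs_of_pos (by norm_num : (0:ℝ) < 4)]
    linarith
  rw [h3] at h4
  have h5 : (nn (y - x) : ℝ) < 10 := by linarith
  have h6 : nn (y - x) < 10 := by exact_mod_cast h5
  exact h6.le

lemma abs_round_le {a : ℝ} {n : ℕ} (h : |a| ≤ n) : |((round a : ℤ) : ℝ)| ≤ n := by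
  have h1 := abs_sub_round a
  rw [abs_le] at h h1
  have h2 : ((round a : ℤ) : ℝ) < ((n + 1 : ℤ) : ℝ) := by push_cast; linarith
  have h3 : ((-(n + 1) : ℤ) : ℝ) < ((round a : ℤ) : ℝ) := by push_cast; linarith
  have h4 : round a < (n + 1 : ℤ) := by exact_mod_cast h2
  have h5 : (-(n + 1) : ℤ) < round a := by exact_mod_cast h3
  rw [abs_le]
  constructor
  · have : (-(n : ℤ)) ≤ round a := by omega
    exact_mod_cast this
  · have : round a ≤ (n : ℤ) := by omega
    exact_mod_cast this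

lemma exists_close {w : G → Fin 3 → ℝ} (h : Slope (1 / 16) w) (t : G) (n : ℕ) :
    ∀ y : G, (∀ j, |(y j : ℝ) - w y j - 4 * t j - 2| ≤ n) →
      ∃ y' : G, ∀ j, |(y' j : ℝ) - w y' j - 4 * t j - 2| < 2 := by
  induction n with
  | zero =>
    intro y hy
    refine ⟨y, fun j => lt_of_le_of_lt (hy j) (by norm_num)⟩
  | succ n ih =>
    intro y hy
    by_cases hn : n = 0
    · subst hn
      exact ⟨y, fun j => lt_of_le_of_lt (hy j) (by norm_num)⟩
    · have hn1 : (1 : ℝ) ≤ n := by exact_mod_cast Nat.one_le_iff_ne_zero.2 hn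
      set y' : G := fun j => y j - round ((y j : ℝ) - w y j - 4 * t j - 2) with hy'
      refine ih y' fun j => ?_
      have h1 : ∀ i, |((y' i - y i : ℤ) : ℝ)| ≤ ((n + 1 : ℕ) : ℝ) := by
        intro i
        have h2 : (y' i - y i : ℤ) = -round ((y i : ℝ) - w y i - 4 * t i - 2) := by
          rw [hy']; ring
        rw [h2]
        push_cast
        rw [abs_neg]
        have := abs_round_le (hy i)
        push_cast at this
        exact this
      have h2 := lip' h y y' j _ h1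
      have h3 := abs_sub_round ((y j : ℝ) - w y j - 4 * t j - 2)
      have h4 : (y' j : ℝ) - w y' j - 4 * t j - 2 =
          (((y j : ℝ) - w y j - 4 * t j - 2) - round ((y j : ℝ) - w y j - 4 * t j - 2)) -
          (w y' j - w y j) := by
        have : ((y' j : ℤ) : ℝ) = y j - round ((y j : ℝ) - w y j - 4 * t j - 2) := by
          rw [hy']; push_cast; rfl
        rw [this]; ring
      rw [h4]
      refine (abs_sub _ _).trans ?_
      push_cast at h2
      linarith

/-- FLOOR. -/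
theorem t_floor : StmFloor := by
  intro w h
  refine ⟨fun x i => ?_, fun x y i hxy => near h x y i hxy⟩
  generalize coord w x + e i = t
  obtain ⟨n, hn⟩ := exists_nat_ge (∑ j, |((x j : ℤ) : ℝ) - w x j - 4 * t j - 2|)
  obtain ⟨y, hy⟩ := exists_close h t n x fun j =>
    (Finset.single_le_sum (f := fun j => |((x j : ℤ) : ℝ) - w x j - 4 * t j - 2|)
      (fun _ _ => abs_nonneg _) (Finset.mem_univ j)).trans hn
  refine ⟨y, ?_⟩
  funext j
  have h1 := hy j
  rw [abs_lt] at h1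
  show ⌊((y j : ℝ) - w y j) / 4⌋ = t j
  rw [Int.floor_eq_iff]
  constructor <;> linarith [h1.1, h1.2]

end Pool.Agent.Y471.BC
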